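import Mathlib

/-!
# The bichromatic Maker-Breaker k-hole game: definitions
-/

namespace Pool.Agent.R183.HoleGame

/-- The plane. -/
abbrev Pt := ℝ × ℝ

/-- General position: no three (distinct) points of `P` are collinear. -/
def GenPos (P : Finset Pt) : Prop :=
  ∀ p ∈ P, ∀ q ∈ P, ∀ r ∈ P, p ≠ q → p ≠ r → q ≠ r → ¬ Collinear ℝ ({p, q, r} : Set Pt)

/-- `H` is a `k`-hole of `P`: a `k`-element subset of `P` in convex position such that the
interior of its convex hull contains no point of `P`. -/
def IsHole (k : ℕ) (P H : Finset Pt) : Prop :=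
  H ⊆ P ∧ H.card = k ∧ ConvexIndependent ℝ (fun x : {x // x ∈ H} => (x : Pt)) ∧
    ∀ x ∈ P, x ∉ interior (convexHull ℝ (H : Set Pt))

/-- If Maker owns `M` and Breaker owns `B`: the set of all placed points has a `k`-hole all of
whose vertices are Maker's. -/
def MakerHole (k : ℕ) (M B : Finset Pt) : Prop := ∃ H ⊆ M, IsHole k (M ∪ B) H

/-- Maker's points before round `n` (rounds are numbered `0, 1, 2, ...`; in round `n` Maker
places `x n`). -/
noncomputable def mPts (x : ℕ → Pt) (n : ℕ) : Finset Pt := (Finset.range n).image x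

/-- Breaker's reply in round `n` when he follows `τ`: the set `τ` assigns to the list
`x 0, ..., x n` of all moves Maker has made. -/
def reply (τ : List Pt → Finset Pt) (x : ℕ → Pt) (n : ℕ) : Finset Pt :=
  τ ((List.range (n + 1)).map x)

/-- Breaker's points before round `n` when he follows `τ`. -/
noncomputable def bPts (τ : List Pt → Finset Pt) (x : ℕ → Pt) (n : ℕ) : Finset Pt :=
  (Finset.range n).biUnion fun i => reply τ x i

/-- Maker's move `x n` in round `n` is legal: it is a new point, and the placed points stay in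
general position. -/
def MakerLegal (τ : List Pt → Finset Pt) (x : ℕ → Pt) (n : ℕ) : Prop :=
  x n ∉ mPts x n ∪ bPts τ x n ∧ GenPos (mPts x (n + 1) ∪ bPts τ x n)

/-- Breaker's reply in round `n` is legal in the game with bias `1 : s`: it consists of at most
`s` new points, and the placed points stay in general position. -/
def BreakerLegal (s : ℕ) (τ : List Pt → Finset Pt) (x : ℕ → Pt) (n : ℕ) : Prop :=
  (reply τ x n).card ≤ s ∧ Disjoint (reply τ x n) (mPts x (n + 1) ∪ bPts τ x n) ∧
    GenPos (mPts x (n + 1) ∪ bPts τ x (n + 1))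

/-- Breaker has a winning strategy in the bichromatic Maker-Breaker `k`-hole game with bias
`1 : s`: there is `τ` such that, whatever points `x 0, x 1, ...` Maker places, as long as her
moves have been legal, Breaker's reply is legal and there is no `k`-hole with all its vertices
Maker's, neither after her move nor after his reply. -/
def BreakerWins (k s : ℕ) : Prop :=
  ∃ τ : List Pt → Finset Pt, ∀ (x : ℕ → Pt) (n : ℕ), (∀ i ≤ n, MakerLegal τ x i) →
    BreakerLegal s τ x n ∧ ¬ MakerHole k (mPts x (n + 1)) (bPts τ x n) ∧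
      ¬ MakerHole k (mPts x (n + 1)) (bPts τ x (n + 1))

/-- Maker (to move; `M` her points, `P` all placed points) can force a win. -/
inductive MW (k s : ℕ) : Finset Pt → Finset Pt → Prop
  | now (M P : Finset Pt) (x : Pt) (H : Finset Pt) (hx : x ∉ P) (hg : GenPos (insert x P))
      (hH : H ⊆ insert x M) (hh : IsHole k (insert x P) H) : MW k s M P
  | later (M P : Finset Pt) (x : Pt) (hx : x ∉ P) (hg : GenPos (insert x P))
      (h : ∀ R : Finset Pt, R.card ≤ s → Disjoint R (insert x P) → GenPos (insert x P ∪ R) →
        MW k s (insert x M) (insert x P ∪ R)) : MW k s M P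

theorem mPts_update (x : ℕ → Pt) (n : ℕ) (y : Pt) : mPts (Function.update x n y) n = mPts x n := by
  unfold mPts
  apply Finset.image_congr
  intro i hi
  have : i ≠ n := by
    have := Finset.mem_range.1 hi
    omega
  simp [this]

theorem mPts_succ (x : ℕ → Pt) (n : ℕ) : mPts x (n + 1) = insert (x n) (mPts x n) := by
  unfold mPts
  rw [Finset.range_add_one, Finset.image_insert]

theorem bPts_succ (τ : List Pt → Finset Pt) (x : ℕ → Pt) (n : ℕ) :
    bPts τ x (n + 1) = reply τ x n ∪ bPts τ x n := by
  unfold bPts
  rw [Finset.range_add_one, Finset.biUnion_insert]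

theorem reply_update (τ : List Pt → Finset Pt) (x : ℕ → Pt) (n i : ℕ) (y : Pt) (h : i < n) :
    reply τ (Function.update x n y) i = reply τ x i := by
  unfold reply
  congr 1
  apply List.map_congr_left
  intro j hj
  have : j ≠ n := by
    have := List.mem_range.1 hj
    omega
  simp [this]

theorem bPts_update (τ : List Pt → Finset Pt) (x : ℕ → Pt) (n i : ℕ) (y : Pt) (h : i ≤ n) :
    bPts τ (Function.update x n y) i = bPts τ x i := by
  unfold bPts
  apply Finset.biUnion_congr rfl
  intro j hj
  have := Finset.mem_range.1 hj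
  exact reply_update τ x n j y (by omega)

theorem mPts_update' (x : ℕ → Pt) (n i : ℕ) (y : Pt) (h : i ≤ n) :
    mPts (Function.update x n y) i = mPts x i := by
  unfold mPts
  apply Finset.image_congr
  intro j hj
  have : j ≠ n := by
    have := Finset.mem_range.1 hj
    omega
  simp [this]

theorem makerLegal_update (τ : List Pt → Finset Pt) (x : ℕ → Pt) (n i : ℕ) (y : Pt) (h : i < n)
    (hl : MakerLegal τ x i) : MakerLegal τ (Function.update x n y) i := by
  unfold MakerLegal at hl ⊢
  have hne : i ≠ n := by omega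
  rw [mPts_update' x n i y h.le, mPts_update' x n (i + 1) y h, bPts_update τ x n i y h.le]
  simpa [hne] using hl

theorem MW.not_breaker {k s : ℕ} {M P : Finset Pt} (h : MW k s M P) :
    ∀ (τ : List Pt → Finset Pt), (∀ (x : ℕ → Pt) (n : ℕ), (∀ i ≤ n, MakerLegal τ x i) →
      BreakerLegal s τ x n ∧ ¬ MakerHole k (mPts x (n + 1)) (bPts τ x n) ∧
        ¬ MakerHole k (mPts x (n + 1)) (bPts τ x (n + 1))) →
    ∀ (x : ℕ → Pt) (n : ℕ), (∀ i < n, MakerLegal τ x i) → M = mPts x n →
      P = mPts x n ∪ bPts τ x n → False := by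
  induction h with
  | now M P y H hy hg hH hh =>
    intro τ hτ x n hl hM hP
    set x' := Function.update x n y with hx'
    have h1 : mPts x' n = mPts x n := mPts_update x n y
    have h2 : bPts τ x' n = bPts τ x n := bPts_update τ x n n y le_rfl
    have hxn : x' n = y := by simp [hx']
    have h3 : mPts x' (n + 1) = insert y (mPts x n) := by rw [mPts_succ, h1, hxn]
    have hleg : ∀ i ≤ n, MakerLegal τ x' i := by
      intro i hi
      rcases Nat.lt_or_eq_of_le hi with h | h
      · exact makerLegal_update τ x n i y h (hl i h)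
      · subst h
        refine ⟨?_, ?_⟩
        · rw [h1, h2, hxn, ← hP]; exact hy
        · rw [h3, h2, Finset.insert_union, ← hP]; exact hg
    obtain ⟨_, h5, _⟩ := hτ x' n hleg
    apply h5
    refine ⟨H, ?_, ?_⟩
    · rw [h3, ← hM]; exact hH
    · rw [h3, h2, Finset.insert_union, ← hP]; exact hh
  | later M P y hy hg hR ih =>
    intro τ hτ x n hl hM hP
    set x' := Function.update x n y with hx'
    have h1 : mPts x' n = mPts x n := mPts_update x n y
    have h2 : bPts τ x' n = bPts τ x n := bPts_update τ x n n y le_rfl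
    have hxn : x' n = y := by simp [hx']
    have h3 : mPts x' (n + 1) = insert y (mPts x n) := by rw [mPts_succ, h1, hxn]
    have hleg : ∀ i ≤ n, MakerLegal τ x' i := by
      intro i hi
      rcases Nat.lt_or_eq_of_le hi with h | h
      · exact makerLegal_update τ x n i y h (hl i h)
      · subst h
        refine ⟨?_, ?_⟩
        · rw [h1, h2, hxn, ← hP]; exact hy
        · rw [h3, h2, Finset.insert_union, ← hP]; exact hg
    obtain ⟨⟨hc, hd, hgp⟩, _, _⟩ := hτ x' n hleg
    have hU : mPts x' (n + 1) ∪ bPts τ x' n = insert y P := by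
      rw [h3, h2, Finset.insert_union, ← hP]
    have hU' : mPts x' (n + 1) ∪ bPts τ x' (n + 1) = insert y P ∪ reply τ x' n := by
      rw [bPts_succ, ← Finset.union_assoc, Finset.union_right_comm, hU]
    refine ih (reply τ x' n) hc (by rw [← hU]; exact hd) (by rw [← hU']; exact hgp) τ hτ x' (n + 1)
      (fun i hi => hleg i (by omega)) ?_ ?_
    · rw [h3, hM]
    · rw [hU']

theorem MW.main {k s : ℕ} (h : MW k s ∅ ∅) : ¬ BreakerWins k s := by
  rintro ⟨τ, hτ⟩
  exact h.not_breaker τ hτ (fun _ => (0, 0)) 0 (fun i hi => absurd hi (Nat.not_lt_zero i))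
    (by simp [mPts]) (by simp [mPts, bPts])

end Pool.Agent.R183.HoleGame
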