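import Mathlib
import Pool.Agent.R183.HoleGame

/-!
# Plane geometry for the k-hole game
-/

namespace Pool.Agent.R183.HoleGame

open Filter Topology

/-- cross product of `q - p` and `x - p` -/
def cr (p q x : Pt) : ℝ := (q.1 - p.1) * (x.2 - p.2) - (q.2 - p.2) * (x.1 - p.1)

theorem cr_left (p x : Pt) : cr p p x = 0 := by unfold cr; ring

theorem cr_right (p x : Pt) : cr p x x = 0 := by unfold cr; ring

theorem cr_mid (p x : Pt) : cr p x p = 0 := by unfold cr; ring

theorem cr_swap (p q x : Pt) : cr p x q = - cr p q x := by unfold cr; ring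

theorem cr_rot (p q x : Pt) : cr q x p = cr p q x := by unfold cr; ring

theorem collinear_iff_cr (p q r : Pt) : Collinear ℝ ({p, q, r} : Set Pt) ↔ cr p q r = 0 := by
  rw [collinear_iff_of_mem (p₀ := p) (by simp)]
  constructor
  · rintro ⟨v, hv⟩
    obtain ⟨t, ht⟩ := hv q (by simp)
    obtain ⟨u, hu⟩ := hv r (by simp)
    subst ht
    subst hu
    simp only [cr, vadd_eq_add, Prod.fst_add, Prod.snd_add, Prod.smul_fst, Prod.smul_snd,
      smul_eq_mul]
    ring
  · intro h
    by_cases hqp : q = p
    · subst hqp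
      refine ⟨r - q, ?_⟩
      rintro z (rfl | rfl | rfl)
      · exact ⟨0, by simp⟩
      · exact ⟨0, by simp⟩
      · exact ⟨1, by simp⟩
    · refine ⟨q - p, ?_⟩
      rintro z (rfl | rfl | rfl)
      · exact ⟨0, by simp⟩
      · exact ⟨1, by simp⟩
      · unfold cr at h
        by_cases h1 : q.1 - p.1 = 0
        · have h2 : q.2 - p.2 ≠ 0 := by
            intro h2
            apply hqp
            apply Prod.ext
            · linarith
            · linarith
          rw [h1] at h
          have h3 : z.1 - p.1 = 0 := by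
            rcases mul_eq_zero.1 (by linarith : (q.2 - p.2) * (z.1 - p.1) = 0) with h | h
            · exact absurd h h2
            · exact h
          refine ⟨(z.2 - p.2) / (q.2 - p.2), ?_⟩
          apply Prod.ext
          · simp only [vadd_eq_add, Prod.fst_add, Prod.smul_fst, Prod.fst_sub, smul_eq_mul, h1]
            linarith
          · simp only [vadd_eq_add, Prod.snd_add, Prod.smul_snd, Prod.snd_sub, smul_eq_mul]
            rw [div_mul_cancel₀ _ h2]
            ring
        · refine ⟨(z.1 - p.1) / (q.1 - p.1), ?_⟩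
          apply Prod.ext
          · simp only [vadd_eq_add, Prod.fst_add, Prod.smul_fst, Prod.fst_sub, smul_eq_mul]
            rw [div_mul_cancel₀ _ h1]
            ring
          · simp only [vadd_eq_add, Prod.snd_add, Prod.smul_snd, Prod.snd_sub, smul_eq_mul]
            have : (z.1 - p.1) / (q.1 - p.1) * (q.2 - p.2) = z.2 - p.2 := by
              rw [div_mul_eq_mul_div, div_eq_iff h1]
              linarith
            rw [this]
            ring

theorem GenPos.cr_ne {P : Finset Pt} (h : GenPos P) {p q r : Pt} (hp : p ∈ P) (hq : q ∈ P)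
    (hr : r ∈ P) (h1 : p ≠ q) (h2 : p ≠ r) (h3 : q ≠ r) : cr p q r ≠ 0 := fun h0 =>
  h p hp q hq r hr h1 h2 h3 ((collinear_iff_cr p q r).2 h0)

theorem GenPos.mono {P Q : Finset Pt} (h : GenPos Q) (hs : P ⊆ Q) : GenPos P :=
  fun p hp q hq r hr => h p (hs hp) q (hs hq) r (hs hr)

theorem GenPos.insert {P : Finset Pt} (h : GenPos P) {x : Pt}
    (hx : ∀ p ∈ P, ∀ q ∈ P, p ≠ q → cr p q x ≠ 0) : GenPos (insert x P) := by
  intro p hp q hq r hr h1 h2 h3 hcol
  rw [collinear_iff_cr] at hcol
  rw [Finset.mem_insert] at hp hq hr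
  rcases hp with rfl | hp
  · rcases hq with rfl | hq
    · exact h1 rfl
    · rcases hr with rfl | hr
      · exact h2 rfl
      · apply hx q hq r hr h3
        rw [← hcol]; unfold cr; ring
  · rcases hq with rfl | hq
    · rcases hr with rfl | hr
      · exact h3 rfl
      · apply hx p hp r hr h2
        have : cr p r q = - cr p q r := by unfold cr; ring
        rw [this, hcol, neg_zero]
    · rcases hr with rfl | hr
      · exact hx p hp q hq h1 hcol
      · exact h.cr_ne hp hq hr h1 h2 h3 hcol

/-- A quadratic curve through `m` with independent velocity and acceleration avoids any line. -/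
theorem curve_generic (m v w p q : Pt) (hvw : v.1 * w.2 - v.2 * w.1 ≠ 0) (hpq : p ≠ q) :
    ∀ᶠ t : ℝ in 𝓝[≠] 0, cr p q (m + t • v + t ^ 2 • w) ≠ 0 := by
  set A := cr p q m with hA
  set B := (q.1 - p.1) * v.2 - (q.2 - p.2) * v.1 with hB
  set C := (q.1 - p.1) * w.2 - (q.2 - p.2) * w.1 with hC
  have hval : ∀ t : ℝ, cr p q (m + t • v + t ^ 2 • w) = A + t * B + t ^ 2 * C := by
    intro t
    simp only [hA, hB, hC, cr, Prod.fst_add, Prod.snd_add, Prod.smul_fst, Prod.smul_snd,
      smul_eq_mul]
    ring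
  simp only [hval]
  have hBC : B ≠ 0 ∨ C ≠ 0 := by
    by_contra hcon
    push Not at hcon
    obtain ⟨hB0, hC0⟩ := hcon
    apply hpq
    have e1 : (q.1 - p.1) * (v.1 * w.2 - v.2 * w.1) = v.1 * C - w.1 * B := by
      simp only [hB, hC]; ring
    have e2 : (q.2 - p.2) * (v.1 * w.2 - v.2 * w.1) = v.2 * C - w.2 * B := by
      simp only [hB, hC]; ring
    rw [hB0, hC0] at e1 e2
    have e3 : q.1 - p.1 = 0 := by
      rcases mul_eq_zero.1 (e1.trans (by ring)) with h | h
      · exact h
      · exact absurd h hvw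
    have e4 : q.2 - p.2 = 0 := by
      rcases mul_eq_zero.1 (e2.trans (by ring)) with h | h
      · exact h
      · exact absurd h hvw
    exact Prod.ext (by linarith) (by linarith)
  by_cases hA0 : A = 0
  · rw [hA0]
    by_cases hB0 : B = 0
    · have hC0 : C ≠ 0 := by
        rcases hBC with h | h
        · exact absurd hB0 h
        · exact h
      filter_upwards [self_mem_nhdsWithin] with t ht
      rw [hB0]
      have : t ≠ 0 := ht
      simp [this, hC0]
    · have hcont : Continuous fun t : ℝ => B + t * C := by fun_prop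
      have : ∀ᶠ t : ℝ in 𝓝 0, B + t * C ≠ 0 := by
        apply hcont.continuousAt.eventually_ne
        simpa using hB0
      filter_upwards [self_mem_nhdsWithin, this.filter_mono nhdsWithin_le_nhds] with t ht h2
      have h3 : t ≠ 0 := ht
      have : (0 : ℝ) + t * B + t ^ 2 * C = t * (B + t * C) := by ring
      rw [this]
      exact mul_ne_zero h3 h2
  · have hcont : Continuous fun t : ℝ => A + t * B + t ^ 2 * C := by fun_prop
    have : ∀ᶠ t : ℝ in 𝓝 0, A + t * B + t ^ 2 * C ≠ 0 := by
      apply hcont.continuousAt.eventually_ne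
      simpa using hA0
    exact this.filter_mono nhdsWithin_le_nhds

theorem curve_ne (m v w p : Pt) (hvw : v.1 * w.2 - v.2 * w.1 ≠ 0) :
    ∀ᶠ t : ℝ in 𝓝[≠] 0, m + t • v + t ^ 2 • w ≠ p := by
  have := curve_generic m v w p (p + v) hvw (by
    intro h
    apply hvw
    have : v = 0 := by simpa using h
    rw [this]; simp)
  filter_upwards [this] with t ht h
  apply ht
  rw [h]
  unfold cr
  ring

theorem curve_tendsto (m v w : Pt) :
    Tendsto (fun t : ℝ => m + t • v + t ^ 2 • w) (𝓝[>] 0) (𝓝 m) := by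
  have hcont : Continuous fun t : ℝ => m + t • v + t ^ 2 • w := by fun_prop
  have := hcont.tendsto 0
  simp only [zero_smul, add_zero, ne_eq, OfNat.ofNat_ne_zero, not_false_eq_true, zero_pow] at this
  exact this.mono_left nhdsWithin_le_nhds

/-- Points on the curve that are close to `m` are generic with respect to `P`. -/
theorem curve_legal (P : Finset Pt) (m v w : Pt) (hvw : v.1 * w.2 - v.2 * w.1 ≠ 0) :
    ∀ᶠ t : ℝ in 𝓝[>] 0, (m + t • v + t ^ 2 • w ∉ P) ∧
      ∀ p ∈ P, ∀ q ∈ P, p ≠ q → cr p q (m + t • v + t ^ 2 • w) ≠ 0 := by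
  have hle : 𝓝[>] (0 : ℝ) ≤ 𝓝[≠] 0 := nhdsWithin_mono _ (fun t ht => ne_of_gt ht)
  have h1 : ∀ᶠ t : ℝ in 𝓝[>] 0, ∀ p ∈ P, m + t • v + t ^ 2 • w ≠ p := by
    rw [Filter.eventually_all_finset]
    intro p _
    exact (curve_ne m v w p hvw).filter_mono hle
  have h2 : ∀ᶠ t : ℝ in 𝓝[>] 0, ∀ p ∈ P, ∀ q ∈ P, p ≠ q →
      cr p q (m + t • v + t ^ 2 • w) ≠ 0 := by
    rw [Filter.eventually_all_finset]
    intro p _
    rw [Filter.eventually_all_finset]
    intro q _
    by_cases hpq : p = q
    · exact Filter.Eventually.of_forall fun t h => absurd hpq h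
    · filter_upwards [(curve_generic m v w p q hvw hpq).filter_mono hle] with t ht _
      exact ht
  filter_upwards [h1, h2] with t h3 h4
  exact ⟨fun h => h3 _ h rfl, h4⟩

/-- near any point there is a legal point with any property that holds nearby -/
theorem exists_near (P : Finset Pt) (m : Pt) {φ : Pt → Prop} (hφ : ∀ᶠ d in 𝓝 m, φ d) :
    ∃ d, d ∉ P ∧ (∀ p ∈ P, ∀ q ∈ P, p ≠ q → cr p q d ≠ 0) ∧ φ d := by
  have hvw : ((1, 0) : Pt).1 * ((0, 1) : Pt).2 - ((1, 0) : Pt).2 * ((0, 1) : Pt).1 ≠ 0 := by
    simp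
  have h1 := curve_legal P m (1, 0) (0, 1) hvw
  have h2 := (curve_tendsto m (1, 0) (0, 1)).eventually hφ
  obtain ⟨t, h3, h4⟩ := (h1.and h2).exists
  exact ⟨_, h3.1, h3.2, h4⟩

/-- A point outside the hull of `insert m S` stays outside when `m` is moved slightly. -/
theorem hull_stable (S : Finset Pt) (m x : Pt)
    (hx : x ∉ convexHull ℝ (insert m (S : Set Pt))) :
    ∀ᶠ d in 𝓝 m, x ∉ convexHull ℝ (insert d (S : Set Pt)) := by
  have hfin : (insert m (S : Set Pt)).Finite := (Finset.finite_toSet S).insert m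
  have hclosed : IsClosed (convexHull ℝ (insert m (S : Set Pt))) :=
    (Set.Finite.isCompact_convexHull ℝ hfin).isClosed
  obtain ⟨f, u, h1, h2⟩ := geometric_hahn_banach_point_closed (convex_convexHull ℝ _) hclosed hx
  have hm : u < f m := h2 m (subset_convexHull ℝ _ (Set.mem_insert _ _))
  have hnear : ∀ᶠ d in 𝓝 m, u < f d := (f.continuous.tendsto m).eventually_const_lt hm
  filter_upwards [hnear] with d hd hcon
  have hsub : convexHull ℝ (insert d (S : Set Pt)) ⊆ {y | u < f y} := by
    apply convexHull_min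
    · intro y hy
      rcases hy with rfl | hy
      · exact hd
      · exact h2 y (subset_convexHull ℝ _ (Set.mem_insert_of_mem _ hy))
    · exact convex_halfSpace_gt f.isLinear u
  have := hsub hcon
  exact lt_asymm h1 this

/-- A vertex is not in the interior of the hull. -/
theorem vertex_notMem_interior (H : Set Pt) (hfin : H.Finite) (v : Pt) (hv : v ∈ H)
    (hne : ∃ y ∈ H, y ≠ v) (hx : v ∉ convexHull ℝ (H \ {v})) :
    v ∉ interior (convexHull ℝ H) := by
  intro hint
  have hclosed : IsClosed (convexHull ℝ (H \ {v})) :=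
    (Set.Finite.isCompact_convexHull ℝ (hfin.subset Set.sdiff_subset)).isClosed
  obtain ⟨f, u, h1, h2⟩ := geometric_hahn_banach_point_closed (convex_convexHull ℝ _) hclosed hx
  obtain ⟨y, hy, hyv⟩ := hne
  have hfy : u < f y := h2 y (subset_convexHull ℝ _ ⟨hy, hyv⟩)
  have hsub : convexHull ℝ H ⊆ {z | f v ≤ f z} := by
    apply convexHull_min
    · intro z hz
      by_cases hzv : z = v
      · subst hzv; exact (le_refl (f z) : f z ≤ f z)
      · exact (h1.trans (h2 z (subset_convexHull ℝ _ ⟨hz, hzv⟩))).le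
    · exact convex_halfSpace_ge f.isLinear _
  have hcont : Continuous fun t : ℝ => v + t • (v - y) := by fun_prop
  have htend := hcont.tendsto 0
  simp only [zero_smul, add_zero] at htend
  have hev : ∀ᶠ t : ℝ in 𝓝[>] 0, v + t • (v - y) ∈ interior (convexHull ℝ H) :=
    (htend.eventually (isOpen_interior.mem_nhds hint)).filter_mono nhdsWithin_le_nhds
  obtain ⟨t, ht, ht0⟩ := (hev.and self_mem_nhdsWithin).exists
  have ht0 : (0 : ℝ) < t := ht0
  have := hsub (interior_subset ht)
  simp only [Set.mem_ofPred_eq, map_add, map_smul, map_sub, smul_eq_mul] at this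
  nlinarith

end Pool.Agent.R183.HoleGame
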