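import Mathlib
import Pool.Agent.R183.HoleGame
import Pool.Agent.R183.HoleGeom

/-!
# Rings of Breaker's points: plane geometry
-/

namespace Pool.Agent.R183.HoleGame

open Filter Topology

/-- cross product of vectors -/
def crv (u w : Pt) : ℝ := u.1 * w.2 - u.2 * w.1

/-- the vector as a complex number -/
def toC (u : Pt) : ℂ := ⟨u.1, u.2⟩

/-- unoriented angle between vectors -/
noncomputable def ang (u w : Pt) : ℝ := InnerProductGeometry.angle (toC u) (toC w)

theorem toC_sub (u w : Pt) : toC (u - w) = toC u - toC w := by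
  apply Complex.ext <;> simp [toC]

theorem toC_smul (t : ℝ) (u : Pt) : toC (t • u) = t • toC u := by
  apply Complex.ext <;> simp [toC]

theorem toC_ne {u : Pt} (h : u ≠ 0) : toC u ≠ 0 := by
  intro h0
  apply h
  have h1 := congrArg Complex.re h0
  have h2 := congrArg Complex.im h0
  simp only [toC, Complex.zero_re, Complex.zero_im] at h1 h2
  exact Prod.ext h1 h2

theorem toC_continuous : Continuous toC := by
  have : toC = fun u : Pt => ((u.1 : ℂ) + (u.2 : ℂ) * Complex.I) := by
    funext u
    apply Complex.ext <;> simp [toC]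
  rw [this]
  fun_prop

theorem ang_comm (u w : Pt) : ang u w = ang w u := InnerProductGeometry.angle_comm _ _

theorem ang_triangle (u v w : Pt) : ang u w ≤ ang u v + ang v w :=
  InnerProductGeometry.angle_le_angle_add_angle _ _ _

theorem ang_sum (p q r : Pt) (h : q ≠ p) :
    ang (p - q) (r - q) + ang (q - r) (p - r) + ang (r - p) (q - p) = Real.pi := by
  have hne : toC q ≠ toC p := by
    intro h0
    apply h
    have h1 := congrArg Complex.re h0
    have h2 := congrArg Complex.im h0
    exact Prod.ext h1 h2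
  have := EuclideanGeometry.angle_add_angle_add_angle_eq_pi (toC r) hne
  simpa only [EuclideanGeometry.angle, ang, toC_sub, vsub_eq_sub] using this

theorem ang_smul_left (t : ℝ) (ht : 0 < t) (u w : Pt) : ang (t • u) w = ang u w := by
  unfold ang
  rw [toC_smul]
  exact InnerProductGeometry.angle_smul_left_of_pos _ _ ht

theorem ang_ne_pi {u w : Pt} (h : crv u w ≠ 0) : ang u w < Real.pi := by
  refine lt_of_le_of_ne (InnerProductGeometry.angle_le_pi _ _) ?_
  intro h0
  apply h
  obtain ⟨_, r, _, hr⟩ := InnerProductGeometry.angle_eq_pi_iff.1 h0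
  have h1 := congrArg Complex.re hr
  have h2 := congrArg Complex.im hr
  simp only [toC, Complex.real_smul, Complex.mul_re, Complex.mul_im, Complex.ofReal_re,
    Complex.ofReal_im, zero_mul, sub_zero, add_zero] at h1 h2
  unfold crv
  rw [h1, h2]
  ring

/-- the directions of the ring -/
noncomputable def dir (m : ℤ) : Pt :=
  (Real.cos (2 * Real.pi * m / 13), Real.sin (2 * Real.pi * m / 13))

theorem dir_mod (m : ℤ) : dir m = dir (m % 13) := by
  unfold dir
  have h : (m : ℝ) = ((m % 13 : ℤ) : ℝ) + 13 * ((m / 13 : ℤ) : ℝ) := by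
    have := Int.emod_add_mul_ediv m 13
    exact_mod_cast this.symm
  have h2 : 2 * Real.pi * (m : ℝ) / 13 =
      2 * Real.pi * ((m % 13 : ℤ) : ℝ) / 13 + ((m / 13 : ℤ) : ℝ) * (2 * Real.pi) := by
    rw [h]
    have h3 : ((((m % 13 : ℤ) : ℝ) + 13 * ((m / 13 : ℤ) : ℝ)) : ℝ) = (m : ℝ) := h.symm
    field_simp
  rw [h2, Real.cos_add_int_mul_two_pi, Real.sin_add_int_mul_two_pi]

theorem dir_fin (m : ℤ) : ∃ k : Fin 13, dir m = dir (k : ℤ) := by
  have h1 : 0 ≤ m % 13 := Int.emod_nonneg _ (by norm_num)
  have h2 : m % 13 < 13 := Int.emod_lt_of_pos _ (by norm_num)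
  refine ⟨⟨(m % 13).toNat, by omega⟩, ?_⟩
  rw [dir_mod]
  congr 1
  simp [Int.toNat_of_nonneg h1]

/-- `e` is in the open cone spanned by `u` and `w` -/
def InCone (u w e : Pt) : Prop := 0 < crv u w * crv u e ∧ 0 < crv u w * crv e w

/-- Some ring direction is in the cone if the angle is at least `π / 6`. -/
theorem cone_dir (u w : Pt) (h : crv u w ≠ 0) (hθ : Real.pi / 6 ≤ ang u w) :
    ∃ k : Fin 13, InCone u w (dir (k : ℤ)) := by
  have hu : u ≠ 0 := by
    rintro rfl
    apply h
    simp [crv]
  have hw : w ≠ 0 := by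
    rintro rfl
    apply h
    simp [crv]
  set U := toC u with hU
  set W := toC w with hW
  have hU0 : U ≠ 0 := toC_ne hu
  have hW0 : W ≠ 0 := toC_ne hw
  set V := W / U with hV
  have hV0 : V ≠ 0 := div_ne_zero hW0 hU0
  set α := Complex.arg U with hα
  set φ := Complex.arg V with hφ
  have hang : ang u w = |φ| := by
    rw [ang_comm]
    exact Complex.angle_eq_abs_arg hW0 hU0
  have hA : 0 < ‖U‖ := norm_pos_iff.2 hU0
  have hC : 0 < ‖V‖ := norm_pos_iff.2 hV0
  have hu1 : u.1 = ‖U‖ * Real.cos α := by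
    have := congrArg Complex.re (Complex.norm_mul_cos_add_sin_mul_I U)
    simp only [Complex.mul_re, Complex.add_re, Complex.add_im, Complex.mul_im, Complex.I_re,
      Complex.I_im, Complex.ofReal_re, Complex.ofReal_im, ← Complex.ofReal_cos,
      ← Complex.ofReal_sin, zero_mul, mul_zero, mul_one, sub_zero, add_zero, zero_add] at this
    exact this.symm
  have hu2 : u.2 = ‖U‖ * Real.sin α := by
    have := congrArg Complex.im (Complex.norm_mul_cos_add_sin_mul_I U)
    simp only [Complex.mul_re, Complex.add_re, Complex.add_im, Complex.mul_im, Complex.I_re,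
      Complex.I_im, Complex.ofReal_re, Complex.ofReal_im, ← Complex.ofReal_cos,
      ← Complex.ofReal_sin, zero_mul, mul_zero, mul_one, sub_zero, add_zero, zero_add] at this
    exact this.symm
  have hv1 : V.re = ‖V‖ * Real.cos φ := by
    have := congrArg Complex.re (Complex.norm_mul_cos_add_sin_mul_I V)
    simp only [Complex.mul_re, Complex.add_re, Complex.add_im, Complex.mul_im, Complex.I_re,
      Complex.I_im, Complex.ofReal_re, Complex.ofReal_im, ← Complex.ofReal_cos,
      ← Complex.ofReal_sin, zero_mul, mul_zero, mul_one, sub_zero, add_zero, zero_add] at this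
    exact this.symm
  have hv2 : V.im = ‖V‖ * Real.sin φ := by
    have := congrArg Complex.im (Complex.norm_mul_cos_add_sin_mul_I V)
    simp only [Complex.mul_re, Complex.add_re, Complex.add_im, Complex.mul_im, Complex.I_re,
      Complex.I_im, Complex.ofReal_re, Complex.ofReal_im, ← Complex.ofReal_cos,
      ← Complex.ofReal_sin, zero_mul, mul_zero, mul_one, sub_zero, add_zero, zero_add] at this
    exact this.symm
  have hWUV : W = U * V := by rw [hV]; field_simp
  have hw1 : w.1 = ‖U‖ * ‖V‖ * Real.cos (α + φ) := by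
    have : w.1 = (U * V).re := by rw [← hWUV]; rfl
    rw [this, Complex.mul_re, hv1, hv2, Real.cos_add]
    have e1 : U.re = u.1 := rfl
    have e2 : U.im = u.2 := rfl
    rw [e1, e2, hu1, hu2]
    ring
  have hw2 : w.2 = ‖U‖ * ‖V‖ * Real.sin (α + φ) := by
    have : w.2 = (U * V).im := by rw [← hWUV]; rfl
    rw [this, Complex.mul_im, hv1, hv2, Real.sin_add]
    have e1 : U.re = u.1 := rfl
    have e2 : U.im = u.2 := rfl
    rw [e1, e2, hu1, hu2]
    ring
  have hcuw : crv u w = ‖U‖ * (‖U‖ * ‖V‖) * Real.sin φ := by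
    have : Real.sin φ = Real.sin ((α + φ) - α) := by ring_nf
    rw [this, Real.sin_sub, crv, hu1, hu2, hw1, hw2]
    ring
  have hcue : ∀ ψ : ℝ, crv u (Real.cos ψ, Real.sin ψ) = ‖U‖ * Real.sin (ψ - α) := by
    intro ψ
    rw [Real.sin_sub, crv, hu1, hu2]
    ring
  have hcew : ∀ ψ : ℝ, crv (Real.cos ψ, Real.sin ψ) w = ‖U‖ * ‖V‖ * Real.sin (α + φ - ψ) := by
    intro ψ
    rw [Real.sin_sub, crv, hw1, hw2]
    ring
  have hφpi : |φ| < Real.pi := by rw [← hang]; exact ang_ne_pi h
  have hφθ : Real.pi / 6 ≤ |φ| := by rw [← hang]; exact hθ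
  have hpi := Real.pi_pos
  -- an integer multiple of `2π/13` in any open interval of length at least `π/6`
  have hint : ∀ lo : ℝ, ∃ m : ℤ, lo < 2 * Real.pi * m / 13 ∧
      2 * Real.pi * m / 13 < lo + Real.pi / 6 := by
    intro lo
    refine ⟨⌊13 * lo / (2 * Real.pi)⌋ + 1, ?_, ?_⟩
    · have h1 := Int.lt_floor_add_one (13 * lo / (2 * Real.pi))
      rw [div_lt_iff₀ (by positivity)] at h1
      push_cast
      linarith
    · have h1 := Int.floor_le (13 * lo / (2 * Real.pi))
      rw [le_div_iff₀ (by positivity)] at h1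
      push_cast
      linarith
  have hfin : ∃ m : ℤ, InCone u w (dir m) := by
    rcases lt_or_ge 0 φ with hpos | hneg
    · rw [abs_of_pos hpos] at hφpi hφθ
      obtain ⟨m, h1, h2⟩ := hint α
      refine ⟨m, ?_, ?_⟩
      · unfold dir
        rw [hcuw, hcue]
        have s1 : 0 < Real.sin φ := Real.sin_pos_of_pos_of_lt_pi hpos hφpi
        have s2 : 0 < Real.sin (2 * Real.pi * m / 13 - α) :=
          Real.sin_pos_of_pos_of_lt_pi (by linarith) (by linarith)
        positivity
      · unfold dir
        rw [hcuw, hcew]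
        have s1 : 0 < Real.sin φ := Real.sin_pos_of_pos_of_lt_pi hpos hφpi
        have s2 : 0 < Real.sin (α + φ - 2 * Real.pi * m / 13) :=
          Real.sin_pos_of_pos_of_lt_pi (by linarith) (by linarith)
        positivity
    · have hφ0 : φ < 0 := by
        rcases lt_or_eq_of_le hneg with h1 | h1
        · exact h1
        · rw [h1, abs_zero] at hφθ
          linarith
      rw [abs_of_neg hφ0] at hφpi hφθ
      obtain ⟨m, h1, h2⟩ := hint (α + φ)
      have s1 : Real.sin φ < 0 := Real.sin_neg_of_neg_of_neg_pi_lt hφ0 (by linarith)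
      refine ⟨m, ?_, ?_⟩
      · unfold dir
        rw [hcuw, hcue]
        have s2 : Real.sin (2 * Real.pi * m / 13 - α) < 0 :=
          Real.sin_neg_of_neg_of_neg_pi_lt (by linarith) (by linarith)
        have : ‖U‖ * (‖U‖ * ‖V‖) * Real.sin φ * (‖U‖ * Real.sin (2 * Real.pi * m / 13 - α)) =
          (‖U‖ * (‖U‖ * ‖V‖) * ‖U‖) * (Real.sin φ * Real.sin (2 * Real.pi * m / 13 - α)) := by
          ring
        rw [this]
        exact mul_pos (by positivity) (mul_pos_of_neg_of_neg s1 s2)
      · unfold dir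
        rw [hcuw, hcew]
        have s2 : Real.sin (α + φ - 2 * Real.pi * m / 13) < 0 :=
          Real.sin_neg_of_neg_of_neg_pi_lt (by linarith) (by linarith)
        have : ‖U‖ * (‖U‖ * ‖V‖) * Real.sin φ *
            (‖U‖ * ‖V‖ * Real.sin (α + φ - 2 * Real.pi * m / 13)) =
          (‖U‖ * (‖U‖ * ‖V‖) * (‖U‖ * ‖V‖)) *
            (Real.sin φ * Real.sin (α + φ - 2 * Real.pi * m / 13)) := by
          ring
        rw [this]
        exact mul_pos (by positivity) (mul_pos_of_neg_of_neg s1 s2)
  obtain ⟨m, hm⟩ := hfin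
  obtain ⟨k, hk⟩ := dir_fin m
  exact ⟨k, hk ▸ hm⟩

/-- `r` is strictly inside the triangle `p q w` -/
def PosIn (p q w r : Pt) : Prop :=
  0 < cr p q w * cr p q r ∧ 0 < cr p q w * cr q w r ∧ 0 < cr p q w * cr w p r

theorem PosIn.mem_hull {p q w r : Pt} (h : PosIn p q w r) :
    r ∈ convexHull ℝ ({p, q, w} : Set Pt) := by
  obtain ⟨h1, h2, h3⟩ := h
  set Δ := cr p q w with hΔ
  have hΔ0 : Δ ≠ 0 := by
    intro h0
    rw [h0] at h1
    simp at h1
  have hΔ2 : 0 < Δ * Δ := mul_self_pos.2 hΔ0
  have hsum : cr q w r + cr w p r + cr p q r = Δ := by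
    rw [hΔ]; unfold cr; ring
  have e1 : 0 ≤ cr q w r / Δ := by
    have : cr q w r / Δ = (Δ * cr q w r) / (Δ * Δ) := by field_simp
    rw [this]; positivity
  have e2 : 0 ≤ cr w p r / Δ := by
    have : cr w p r / Δ = (Δ * cr w p r) / (Δ * Δ) := by field_simp
    rw [this]; positivity
  have e3 : 0 ≤ cr p q r / Δ := by
    have : cr p q r / Δ = (Δ * cr p q r) / (Δ * Δ) := by field_simp
    rw [this]; positivity
  have e4 : cr q w r / Δ + cr w p r / Δ + cr p q r / Δ = 1 := by
    rw [← add_div, ← add_div, hsum, div_self hΔ0]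
  have hr : r = (cr q w r / Δ) • p + (cr w p r / Δ) • q + (cr p q r / Δ) • w := by
    have hx : Δ * r.1 = cr q w r * p.1 + cr w p r * q.1 + cr p q r * w.1 := by
      rw [hΔ]; unfold cr; ring
    have hy : Δ * r.2 = cr q w r * p.2 + cr w p r * q.2 + cr p q r * w.2 := by
      rw [hΔ]; unfold cr; ring
    apply Prod.ext
    · simp only [Prod.fst_add, Prod.smul_fst, smul_eq_mul]
      field_simp
      linarith
    · simp only [Prod.snd_add, Prod.smul_snd, smul_eq_mul]
      field_simp
      linarith
  have hconv := convex_convexHull ℝ ({p, q, w} : Set Pt)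
  have := hconv.sum_mem (t := (Finset.univ : Finset (Fin 3)))
    (w := ![cr q w r / Δ, cr w p r / Δ, cr p q r / Δ]) (z := ![p, q, w])
    (by
      intro i _
      fin_cases i
      · exact e1
      · exact e2
      · exact e3)
    (by
      rw [Fin.sum_univ_three]
      exact e4)
    (by
      intro i _
      fin_cases i
      · exact subset_convexHull ℝ _ (by simp)
      · exact subset_convexHull ℝ _ (by simp)
      · exact subset_convexHull ℝ _ (by simp))
  rw [Fin.sum_univ_three] at this
  rw [hr]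
  exact this

theorem cr_continuous : Continuous fun a : Pt × Pt × Pt => cr a.1 a.2.1 a.2.2 := by
  unfold cr
  fun_prop

/-- being strictly inside a triangle is an open condition -/
theorem posIn_open_r (p q w r : Pt) (h : PosIn p q w r) : ∀ᶠ r' in 𝓝 r, PosIn p q w r' := by
  obtain ⟨h1, h2, h3⟩ := h
  have c1 : Continuous fun r' : Pt => cr p q w * cr p q r' := by unfold cr; fun_prop
  have c2 : Continuous fun r' : Pt => cr p q w * cr q w r' := by unfold cr; fun_prop
  have c3 : Continuous fun r' : Pt => cr p q w * cr w p r' := by unfold cr; fun_prop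
  filter_upwards [(c1.tendsto r).eventually_const_lt h1, (c2.tendsto r).eventually_const_lt h2,
    (c3.tendsto r).eventually_const_lt h3] with r' a b c
  exact ⟨a, b, c⟩

theorem posIn_open_q (p q w r : Pt) (h : PosIn p q w r) : ∀ᶠ q' in 𝓝 q, PosIn p q' w r := by
  obtain ⟨h1, h2, h3⟩ := h
  have c1 : Continuous fun q' : Pt => cr p q' w * cr p q' r := by unfold cr; fun_prop
  have c2 : Continuous fun q' : Pt => cr p q' w * cr q' w r := by unfold cr; fun_prop
  have c3 : Continuous fun q' : Pt => cr p q' w * cr w p r := by unfold cr; fun_prop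
  filter_upwards [(c1.tendsto q).eventually_const_lt h1, (c2.tendsto q).eventually_const_lt h2,
    (c3.tendsto q).eventually_const_lt h3] with q' a b c
  exact ⟨a, b, c⟩

theorem PosIn.interior {p q w r : Pt} (h : PosIn p q w r) :
    r ∈ interior (convexHull ℝ ({p, q, w} : Set Pt)) := by
  rw [mem_interior_iff_mem_nhds]
  exact (posIn_open_r p q w r h).mono fun r' h' => h'.mem_hull

end Pool.Agent.R183.HoleGame
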