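import Mathlib
import Pool.Agent.R183.HoleRing

/-!
# Rings of Breaker's points: existence
-/

namespace Pool.Agent.R183.HoleGame

open Filter Topology

/-- Some point of `R` is in the interior of the triangle `p q w`. -/
def Hit (R : Finset Pt) (p q w : Pt) : Prop :=
  ∃ r ∈ R, r ∈ interior (convexHull ℝ ({p, q, w} : Set Pt))

theorem gen_family {ι : Type} [DecidableEq ι] (P : Finset Pt) (hP : GenPos P) (U : ι → Set Pt)
    (t : ι → Pt) (hU : ∀ i, U i ∈ 𝓝 (t i)) (s : Finset ι) :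
    ∃ r : ι → Pt, (∀ i ∈ s, r i ∈ U i) ∧ Disjoint (s.image r) P ∧ GenPos (P ∪ s.image r) := by
  induction s using Finset.induction_on with
  | empty => exact ⟨t, by simp, by simp, by simpa using hP⟩
  | insert i s hi ih =>
    obtain ⟨r, h1, h2, h3⟩ := ih
    obtain ⟨d, hd, hgen, hdU⟩ := exists_near (P ∪ s.image r) (t i) (φ := fun d => d ∈ U i) (hU i)
    have himg : s.image (Function.update r i d) = s.image r := by
      apply Finset.image_congr
      intro j hj
      have : j ≠ i := fun h => hi (h ▸ hj)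
      simp [this]
    refine ⟨Function.update r i d, ?_, ?_, ?_⟩
    · intro j hj
      rcases Finset.mem_insert.1 hj with rfl | hj
      · simpa using hdU
      · have : j ≠ i := fun h => hi (h ▸ hj)
        simpa [this] using h1 j hj
    · rw [Finset.image_insert, himg, Finset.disjoint_insert_left]
      refine ⟨?_, h2⟩
      simp only [Function.update_self]
      exact fun h => hd (Finset.mem_union_left _ h)
    · rw [Finset.image_insert, himg, Finset.union_insert]
      simp only [Function.update_self]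
      exact h3.insert hgen

/-- auxiliary open condition for a ring point in direction `v` at distance `ρ` -/
def RQ (x z g : Pt) (ρ : ℝ) (v : Pt) : Prop :=
  0 < crv (z - x) (g - x) * crv (z - x) v ∧ 0 < crv (z - x) (g - x) * crv v (g - x) ∧
    0 < crv (z - x) (g - x) * (crv (z - x) (g - x) + ρ * crv (g - z) v)

theorem RQ.posIn {x z g : Pt} {ρ : ℝ} {v : Pt} (h : RQ x z g ρ v) (hρ : 0 < ρ) :
    PosIn x z g (x + ρ • v) := by
  obtain ⟨h1, h2, h3⟩ := h
  refine ⟨?_, ?_, ?_⟩
  · have : cr x z g * cr x z (x + ρ • v) = ρ * (crv (z - x) (g - x) * crv (z - x) v) := by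
      simp only [cr, crv, Prod.fst_add, Prod.snd_add, Prod.smul_fst, Prod.smul_snd,
        Prod.fst_sub, Prod.snd_sub, smul_eq_mul]
      ring
    rw [this]
    exact mul_pos hρ h1
  · have : cr x z g * cr z g (x + ρ • v) =
        crv (z - x) (g - x) * (crv (z - x) (g - x) + ρ * crv (g - z) v) := by
      simp only [cr, crv, Prod.fst_add, Prod.snd_add, Prod.smul_fst, Prod.smul_snd,
        Prod.fst_sub, Prod.snd_sub, smul_eq_mul]
      ring
    rw [this]
    exact h3
  · have : cr x z g * cr g x (x + ρ • v) = ρ * (crv (z - x) (g - x) * crv v (g - x)) := by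
      simp only [cr, crv, Prod.fst_add, Prod.snd_add, Prod.smul_fst, Prod.smul_snd,
        Prod.fst_sub, Prod.snd_sub, smul_eq_mul]
      ring
    rw [this]
    exact mul_pos hρ h2

theorem RQ_eventually (x z g : Pt) (k : Fin 13) (h : InCone (z - x) (g - x) (dir (k : ℤ))) :
    ∀ᶠ a : (ℝ × (Fin 13 → Pt)) × Pt in 𝓝 (((0 : ℝ), (0 : Fin 13 → Pt)), z),
      RQ x a.2 g a.1.1 (dir (k : ℤ) + a.1.2 k) := by
  obtain ⟨h1, h2⟩ := h
  have h0 : crv (z - x) (g - x) ≠ 0 := by
    intro h0
    rw [h0] at h1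
    simp at h1
  have c1 : Continuous fun a : (ℝ × (Fin 13 → Pt)) × Pt =>
      crv (a.2 - x) (g - x) * crv (a.2 - x) (dir (k : ℤ) + a.1.2 k) := by
    unfold crv; fun_prop
  have c2 : Continuous fun a : (ℝ × (Fin 13 → Pt)) × Pt =>
      crv (a.2 - x) (g - x) * crv (dir (k : ℤ) + a.1.2 k) (g - x) := by
    unfold crv; fun_prop
  have c3 : Continuous fun a : (ℝ × (Fin 13 → Pt)) × Pt =>
      crv (a.2 - x) (g - x) * (crv (a.2 - x) (g - x) +
        a.1.1 * crv (g - a.2) (dir (k : ℤ) + a.1.2 k)) := by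
    unfold crv; fun_prop
  have v1 : 0 < crv ((((0 : ℝ), (0 : Fin 13 → Pt)), z).2 - x) (g - x) *
      crv ((((0 : ℝ), (0 : Fin 13 → Pt)), z).2 - x)
        (dir (k : ℤ) + (((0 : ℝ), (0 : Fin 13 → Pt)), z).1.2 k) := by
    simpa using h1
  have v2 : 0 < crv ((((0 : ℝ), (0 : Fin 13 → Pt)), z).2 - x) (g - x) *
      crv (dir (k : ℤ) + (((0 : ℝ), (0 : Fin 13 → Pt)), z).1.2 k) (g - x) := by
    simpa using h2
  have v3 : 0 < crv ((((0 : ℝ), (0 : Fin 13 → Pt)), z).2 - x) (g - x) *
      (crv ((((0 : ℝ), (0 : Fin 13 → Pt)), z).2 - x) (g - x) +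
        (((0 : ℝ), (0 : Fin 13 → Pt)), z).1.1 * crv (g - (((0 : ℝ), (0 : Fin 13 → Pt)), z).2)
          (dir (k : ℤ) + (((0 : ℝ), (0 : Fin 13 → Pt)), z).1.2 k)) := by
    simp only [zero_mul, add_zero]
    exact mul_self_pos.2 h0
  filter_upwards [(c1.tendsto _).eventually_const_lt v1, (c2.tendsto _).eventually_const_lt v2,
    (c3.tendsto _).eventually_const_lt v3] with a k1 k2 k3
  exact ⟨k1, k2, k3⟩

theorem ang_cont (x g z : Pt) (hz : z ≠ x) (hg : g ≠ x) :
    ContinuousAt (fun z' : Pt => ang (z' - x) (g - x)) z := by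
  have h1 : ContinuousAt (fun y : ℂ × ℂ => InnerProductGeometry.angle y.1 y.2)
      (toC (z - x), toC (g - x)) :=
    InnerProductGeometry.continuousAt_angle (toC_ne (sub_ne_zero.2 hz))
      (toC_ne (sub_ne_zero.2 hg))
  have h2 : Continuous fun z' : Pt => ((toC (z' - x), toC (g - x)) : ℂ × ℂ) := by
    have h3 : Continuous fun z' : Pt => toC (z' - x) :=
      toC_continuous.comp (continuous_id.sub continuous_const)
    exact h3.prodMk continuous_const
  exact ContinuousAt.comp (f := fun z' : Pt => ((toC (z' - x), toC (g - x)) : ℂ × ℂ))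
    (g := fun y : ℂ × ℂ => InnerProductGeometry.angle y.1 y.2) h1 h2.continuousAt

theorem ring_ev2 (x g h : Pt) (hgh : crv (g - x) (h - x) ≠ 0) (η : ℝ) (hη : 0 < η) :
    ∀ᶠ a : ℝ × (Fin 13 → Pt) in 𝓝 ((0 : ℝ), (0 : Fin 13 → Pt)), ∀ z ∈ Metric.sphere x η,
      0 < a.1 → Real.pi / 6 ≤ ang (z - x) (g - x) → Real.pi / 6 ≤ ang (z - x) (h - x) →
      ∃ k : Fin 13, PosIn x z g (x + a.1 • (dir (k : ℤ) + a.2 k)) ∨
        PosIn x z h (x + a.1 • (dir (k : ℤ) + a.2 k)) := by
  apply (isCompact_sphere x η).eventually_forall_of_forall_eventually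
  intro z hz
  have hzx : z ≠ x := by
    rintro rfl
    rw [Metric.mem_sphere, dist_self] at hz
    exact hη.ne hz
  have hgx : g ≠ x := by
    rintro rfl
    apply hgh
    simp [crv]
  have hhx : h ≠ x := by
    rintro rfl
    apply hgh
    simp [crv]
  have hlt : ∀ g' : Pt, g' ≠ x → ang (z - x) (g' - x) < Real.pi / 6 →
      ∀ᶠ a : (ℝ × (Fin 13 → Pt)) × Pt in 𝓝 (((0 : ℝ), (0 : Fin 13 → Pt)), z),
        ang (a.2 - x) (g' - x) < Real.pi / 6 := by
    intro g' hg' hlt
    have h1 := (ang_cont x g' z hzx hg').eventually_lt continuousAt_const hlt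
    have h2 : Tendsto (fun a : (ℝ × (Fin 13 → Pt)) × Pt => a.2)
        (𝓝 (((0 : ℝ), (0 : Fin 13 → Pt)), z)) (𝓝 z) := continuous_snd.tendsto _
    exact h2.eventually h1
  by_cases hg : Real.pi / 6 ≤ ang (z - x) (g - x)
  · by_cases hh : Real.pi / 6 ≤ ang (z - x) (h - x)
    · by_cases h1 : crv (z - x) (g - x) = 0
      · have h2 : crv (z - x) (h - x) ≠ 0 := by
          intro h2
          apply hgh
          have hu : (z - x).1 ≠ 0 ∨ (z - x).2 ≠ 0 := by
            by_contra hcon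
            push Not at hcon
            exact hzx (sub_eq_zero.1 (Prod.ext hcon.1 hcon.2))
          unfold crv at h1 h2 ⊢
          rcases hu with hu | hu
          · have : (z - x).1 * ((g - x).1 * (h - x).2 - (g - x).2 * (h - x).1) = 0 := by
              linear_combination (g - x).1 * h2 - (h - x).1 * h1
            exact (mul_eq_zero.1 this).resolve_left hu
          · have : (z - x).2 * ((g - x).1 * (h - x).2 - (g - x).2 * (h - x).1) = 0 := by
              linear_combination (g - x).2 * h2 - (h - x).2 * h1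
            exact (mul_eq_zero.1 this).resolve_left hu
        obtain ⟨k, hk⟩ := cone_dir _ _ h2 hh
        filter_upwards [RQ_eventually x z h k hk] with a ha h3 _ _
        exact ⟨k, Or.inr (ha.posIn h3)⟩
      · obtain ⟨k, hk⟩ := cone_dir _ _ h1 hg
        filter_upwards [RQ_eventually x z g k hk] with a ha h3 _ _
        exact ⟨k, Or.inl (ha.posIn h3)⟩
    · filter_upwards [hlt h hhx (not_le.1 hh)] with a ha _ _ h3
      exact absurd h3 (not_le.2 ha)
  · filter_upwards [hlt g hgx (not_le.1 hg)] with a ha _ h3 _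
    exact absurd h3 (not_le.2 ha)

theorem ring_ev1 (x g h : Pt) (hgh : crv (g - x) (h - x) ≠ 0)
    (hang : Real.pi / 6 ≤ ang (g - x) (h - x)) :
    ∀ᶠ a : ℝ × (Fin 13 → Pt) in 𝓝 ((0 : ℝ), (0 : Fin 13 → Pt)),
      0 < a.1 → ∃ k : Fin 13, PosIn x g h (x + a.1 • (dir (k : ℤ) + a.2 k)) := by
  obtain ⟨k, hk⟩ := cone_dir _ _ hgh hang
  have h1 := RQ_eventually x g h k hk
  have h2 : Tendsto (fun a : ℝ × (Fin 13 → Pt) => (a, g)) (𝓝 ((0 : ℝ), (0 : Fin 13 → Pt)))
      (𝓝 (((0 : ℝ), (0 : Fin 13 → Pt)), g)) := by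
    have : Continuous fun a : ℝ × (Fin 13 → Pt) => (a, g) := by fun_prop
    exact this.tendsto _
  filter_upwards [h2.eventually h1] with a ha h3
  exact ⟨k, ha.posIn h3⟩

theorem crv_eq_cr (x g h : Pt) : crv (g - x) (h - x) = cr x g h := by
  simp only [cr, crv, Prod.fst_sub, Prod.snd_sub]

/-- A ring of 13 points around `x`. -/
theorem ring_exists (P : Finset Pt) (hP : GenPos P) (x : Pt) (hx : x ∈ P) (G : Finset Pt)
    (hG : G ⊆ P) (hxG : x ∉ G) (η : ℝ) (hη : 0 < η) :
    ∃ R : Finset Pt, R.card ≤ 13 ∧ Disjoint R P ∧ GenPos (P ∪ R) ∧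
      (∀ g ∈ G, ∀ h ∈ G, g ≠ h → Real.pi / 6 ≤ ang (g - x) (h - x) → Hit R x g h) ∧
      (∀ g ∈ G, ∀ h ∈ G, g ≠ h → ∀ z, z ∉ Metric.closedBall x η →
        Real.pi / 6 ≤ ang (z - x) (g - x) → Real.pi / 6 ≤ ang (z - x) (h - x) →
        Hit R x z g ∨ Hit R x z h) := by
  have hcr : ∀ g ∈ G, ∀ h ∈ G, g ≠ h → crv (g - x) (h - x) ≠ 0 := by
    intro g hg h hh hgh
    rw [crv_eq_cr]
    exact hP.cr_ne hx (hG hg) (hG hh) (fun e => hxG (e ▸ hg)) (fun e => hxG (e ▸ hh)) hgh
  have ev : ∀ᶠ a : ℝ × (Fin 13 → Pt) in 𝓝 ((0 : ℝ), (0 : Fin 13 → Pt)),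
      ∀ g ∈ G, ∀ h ∈ G, g ≠ h →
        ((Real.pi / 6 ≤ ang (g - x) (h - x) → 0 < a.1 →
          ∃ k : Fin 13, PosIn x g h (x + a.1 • (dir (k : ℤ) + a.2 k))) ∧
        ∀ z ∈ Metric.sphere x η, 0 < a.1 → Real.pi / 6 ≤ ang (z - x) (g - x) →
          Real.pi / 6 ≤ ang (z - x) (h - x) →
          ∃ k : Fin 13, PosIn x z g (x + a.1 • (dir (k : ℤ) + a.2 k)) ∨
            PosIn x z h (x + a.1 • (dir (k : ℤ) + a.2 k))) := by
    rw [Filter.eventually_all_finset]
    intro g hg
    rw [Filter.eventually_all_finset]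
    intro h hh
    by_cases hgh : g = h
    · exact Eventually.of_forall fun _ h0 => absurd hgh h0
    have e2 := ring_ev2 x g h (hcr g hg h hh hgh) η hη
    by_cases hang : Real.pi / 6 ≤ ang (g - x) (h - x)
    · filter_upwards [e2, ring_ev1 x g h (hcr g hg h hh hgh) hang] with a h1 h2 _
      exact ⟨fun _ => h2, h1⟩
    · filter_upwards [e2] with a h1 _
      exact ⟨fun h0 => absurd h0 hang, h1⟩
  rw [Metric.eventually_nhds_iff] at ev
  obtain ⟨ε, hε, hev⟩ := ev
  set ρ := ε / 2 with hρ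
  have hρ0 : 0 < ρ := by positivity
  set t : Fin 13 → Pt := fun k => x + ρ • dir (k : ℤ) with ht
  obtain ⟨r, hrU, hrd, hrg⟩ := gen_family P hP (fun k => Metric.ball (t k) (ρ * ε)) t
    (fun k => Metric.ball_mem_nhds _ (by positivity)) Finset.univ
  set δ : Fin 13 → Pt := fun k => ρ⁻¹ • (r k - t k) with hδ
  have hδn : dist δ 0 < ε := by
    rw [dist_pi_lt_iff hε]
    intro k
    have h1 := hrU k (Finset.mem_univ k)
    rw [Metric.mem_ball, dist_eq_norm] at h1
    rw [dist_eq_norm, Pi.zero_apply, sub_zero, hδ]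
    simp only
    rw [norm_smul, Real.norm_of_nonneg (inv_nonneg.2 hρ0.le)]
    rw [inv_mul_lt_iff₀ hρ0]
    exact h1
  have hadist : dist ((ρ, δ) : ℝ × (Fin 13 → Pt)) ((0 : ℝ), (0 : Fin 13 → Pt)) < ε := by
    rw [Prod.dist_eq]
    refine max_lt ?_ hδn
    simp only [dist_zero_right, Real.norm_of_nonneg hρ0.le]
    linarith
  have hr : ∀ k : Fin 13, x + ρ • (dir (k : ℤ) + δ k) = r k := by
    intro k
    rw [hδ, ht]
    simp only
    rw [smul_add, smul_smul, mul_inv_cancel₀ hρ0.ne', one_smul]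
    abel
  have hmain := hev hadist
  simp only [hr] at hmain
  refine ⟨Finset.univ.image r, ?_, hrd, hrg, ?_, ?_⟩
  · exact Finset.card_image_le.trans (by simp)
  · intro g hg h hh hgh hang
    obtain ⟨k, hk⟩ := (hmain g hg h hh hgh).1 hang hρ0
    exact ⟨r k, Finset.mem_image_of_mem _ (Finset.mem_univ _), hk.interior⟩
  · intro g hg h hh hgh z hz a1 a2
    rw [Metric.mem_closedBall, not_le, dist_eq_norm] at hz
    have hn : 0 < ‖z - x‖ := hη.trans hz
    set c := η / ‖z - x‖ with hc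
    have hc0 : 0 < c := by positivity
    have hc1 : c < 1 := by rw [hc, div_lt_one hn]; exact hz
    set z' := x + c • (z - x) with hz'
    have hz'x : z' - x = c • (z - x) := by rw [hz']; abel
    have hsph : z' ∈ Metric.sphere x η := by
      rw [mem_sphere_iff_norm, hz'x, norm_smul, Real.norm_of_nonneg hc0.le, hc,
        div_mul_cancel₀ _ hn.ne']
    have b1 : Real.pi / 6 ≤ ang (z' - x) (g - x) := by
      rw [hz'x, ang_smul_left c hc0]; exact a1
    have b2 : Real.pi / 6 ≤ ang (z' - x) (h - x) := by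
      rw [hz'x, ang_smul_left c hc0]; exact a2
    have hsub : ∀ g' : Pt, interior (convexHull ℝ ({x, z', g'} : Set Pt)) ⊆
        interior (convexHull ℝ ({x, z, g'} : Set Pt)) := by
      intro g'
      apply interior_mono
      apply convexHull_min _ (convex_convexHull ℝ _)
      rintro y (rfl | rfl | rfl)
      · exact subset_convexHull ℝ _ (by simp)
      · have := (convex_convexHull ℝ ({x, z, g'} : Set Pt))
          (subset_convexHull ℝ _ (by simp : x ∈ ({x, z, g'} : Set Pt)))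
          (subset_convexHull ℝ _ (by simp : z ∈ ({x, z, g'} : Set Pt)))
          (sub_nonneg.2 hc1.le) hc0.le (by ring)
        have e : (1 - c) • x + c • z = z' := by
          rw [hz', sub_smul, one_smul, smul_sub]; abel
        rw [e] at this
        exact this
      · exact subset_convexHull ℝ _ (by simp)
    obtain ⟨k, hk⟩ := (hmain g hg h hh hgh).2 z' hsph hρ0 b1 b2
    rcases hk with hk | hk
    · exact Or.inl ⟨r k, Finset.mem_image_of_mem _ (Finset.mem_univ _), hsub g hk.interior⟩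
    · exact Or.inr ⟨r k, Finset.mem_image_of_mem _ (Finset.mem_univ _), hsub h hk.interior⟩

theorem mid_ev (p y a : Pt) (σ : ℝ) (hσ : 0 < σ * cr p y a) :
    ∀ᶠ ε : ℝ in 𝓝[>] 0, PosIn p y a
      ((1 / 2 : ℝ) • (p + y) + (σ * ε) • (-(y - p).2, (y - p).1)) := by
  have hpy : (y - p).1 ≠ 0 ∨ (y - p).2 ≠ 0 := by
    by_contra hcon
    push Not at hcon
    have : cr p y a = 0 := by
      have h1 : y.1 - p.1 = 0 := hcon.1
      have h2 : y.2 - p.2 = 0 := hcon.2
      unfold cr
      rw [h1, h2]; ring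
    rw [this] at hσ
    simp at hσ
  have hsq : 0 < (y - p).1 ^ 2 + (y - p).2 ^ 2 := by
    rcases hpy with h | h
    · have := sq_nonneg (y - p).2
      have h2 : 0 < (y - p).1 ^ 2 := by positivity
      linarith
    · have := sq_nonneg (y - p).1
      have h2 : 0 < (y - p).2 ^ 2 := by positivity
      linarith
  have hne : cr p y a ≠ 0 := by
    intro h0
    rw [h0] at hσ
    simp at hσ
  have hΔ : 0 < cr p y a * cr p y a := mul_self_pos.2 hne
  have c2 : Continuous fun ε : ℝ => cr p y a * cr y a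
      ((1 / 2 : ℝ) • (p + y) + (σ * ε) • (-(y - p).2, (y - p).1)) := by
    unfold cr; fun_prop
  have c3 : Continuous fun ε : ℝ => cr p y a * cr a p
      ((1 / 2 : ℝ) • (p + y) + (σ * ε) • (-(y - p).2, (y - p).1)) := by
    unfold cr; fun_prop
  have v2 : 0 < cr p y a * cr y a
      ((1 / 2 : ℝ) • (p + y) + (σ * 0) • (-(y - p).2, (y - p).1)) := by
    have : cr p y a * cr y a ((1 / 2 : ℝ) • (p + y) + (σ * 0) • (-(y - p).2, (y - p).1)) =
        1 / 2 * (cr p y a * cr p y a) := by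
      simp only [cr, Prod.fst_add, Prod.snd_add, Prod.smul_fst, Prod.smul_snd,
        Prod.fst_sub, Prod.snd_sub, smul_eq_mul]
      ring
    rw [this]; positivity
  have v3 : 0 < cr p y a * cr a p
      ((1 / 2 : ℝ) • (p + y) + (σ * 0) • (-(y - p).2, (y - p).1)) := by
    have : cr p y a * cr a p ((1 / 2 : ℝ) • (p + y) + (σ * 0) • (-(y - p).2, (y - p).1)) =
        1 / 2 * (cr p y a * cr p y a) := by
      simp only [cr, Prod.fst_add, Prod.snd_add, Prod.smul_fst, Prod.smul_snd,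
        Prod.fst_sub, Prod.snd_sub, smul_eq_mul]
      ring
    rw [this]; positivity
  filter_upwards [((c2.tendsto 0).eventually_const_lt v2).filter_mono nhdsWithin_le_nhds,
    ((c3.tendsto 0).eventually_const_lt v3).filter_mono nhdsWithin_le_nhds,
    self_mem_nhdsWithin] with ε k2 k3 hε
  have hε0 : (0 : ℝ) < ε := hε
  refine ⟨?_, k2, k3⟩
  have : cr p y a * cr p y ((1 / 2 : ℝ) • (p + y) + (σ * ε) • (-(y - p).2, (y - p).1)) =
      (σ * cr p y a) * (ε * ((y - p).1 ^ 2 + (y - p).2 ^ 2)) := by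
    simp only [cr, Prod.fst_add, Prod.snd_add, Prod.smul_fst, Prod.smul_snd,
      Prod.fst_sub, Prod.snd_sub, smul_eq_mul]
    ring
  rw [this]
  positivity

/-- Two points close to the midpoint of `p y`, one on each side. -/
theorem mid_exists (P : Finset Pt) (hP : GenPos P) (p y : Pt) (hp : p ∈ P) (hy : y ∈ P)
    (hpy : p ≠ y) (A : Finset Pt) (hA : A ⊆ P) (hpA : p ∉ A) (hyA : y ∉ A) :
    ∃ R : Finset Pt, R.card ≤ 2 ∧ Disjoint R P ∧ GenPos (P ∪ R) ∧
      ∀ a ∈ A, ∃ r ∈ R, PosIn p y a r := by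
  set σ : Fin 2 → ℝ := ![1, -1] with hσ
  set f : Fin 2 → ℝ → Pt := fun b ε =>
    (1 / 2 : ℝ) • (p + y) + (σ b * ε) • (-(y - p).2, (y - p).1) with hf
  have hev : ∀ᶠ ε : ℝ in 𝓝[>] 0, ∀ b : Fin 2, ∀ a ∈ A, 0 < σ b * cr p y a →
      PosIn p y a (f b ε) := by
    rw [Filter.eventually_all]
    intro b
    rw [Filter.eventually_all_finset]
    intro a _
    by_cases h : 0 < σ b * cr p y a
    · filter_upwards [mid_ev p y a (σ b) h] with ε hε _
      exact hε
    · exact Eventually.of_forall fun _ h0 => absurd h0 h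
  obtain ⟨ε, hε⟩ := hev.exists
  obtain ⟨r, hrU, hrd, hrg⟩ := gen_family P hP
    (fun b : Fin 2 => {r : Pt | ∀ a ∈ A, 0 < σ b * cr p y a → PosIn p y a r})
    (fun b => f b ε) (by
      intro b
      show ∀ᶠ r in 𝓝 (f b ε), ∀ a ∈ A, 0 < σ b * cr p y a → PosIn p y a r
      rw [Filter.eventually_all_finset]
      intro a ha
      by_cases h : 0 < σ b * cr p y a
      · filter_upwards [posIn_open_r _ _ _ _ (hε b a ha h)] with r hr _
        exact hr
      · exact Eventually.of_forall fun _ h0 => absurd h0 h) Finset.univ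
  refine ⟨Finset.univ.image r, Finset.card_image_le.trans (by simp), hrd, hrg, ?_⟩
  intro a ha
  have hne : cr p y a ≠ 0 := hP.cr_ne hp hy (hA ha) hpy (fun e => hpA (e ▸ ha))
    (fun e => hyA (e ▸ ha))
  rcases lt_or_gt_of_ne hne with h | h
  · have h1 : 0 < σ 1 * cr p y a := by
      simp only [hσ, Matrix.cons_val_one, Matrix.cons_val_fin_one]
      linarith
    exact ⟨r 1, Finset.mem_image_of_mem _ (Finset.mem_univ _),
      hrU 1 (Finset.mem_univ _) a ha h1⟩
  · have h1 : 0 < σ 0 * cr p y a := by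
      simp only [hσ, Matrix.cons_val_zero]
      linarith
    exact ⟨r 0, Finset.mem_image_of_mem _ (Finset.mem_univ _),
      hrU 0 (Finset.mem_univ _) a ha h1⟩

end Pool.Agent.R183.HoleGame
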