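import Mathlib

/-!
The cone of integer polynomials with nonnegative coefficients and the positivity step used for
mirror deformed Markov numbers.
-/

namespace Pool.Agent.R183.MirrorCone

open Polynomial

/-- integer polynomials all of whose coefficients are nonnegative -/
noncomputable def Cn : Subsemiring ℤ[X] := (Polynomial.mapRingHom (Nat.castRingHom ℤ)).rangeS

theorem coeff_nonneg {p : ℤ[X]} (h : p ∈ Cn) (n : ℕ) : 0 ≤ p.coeff n := by
  obtain ⟨q, rfl⟩ := h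
  simp [Polynomial.coe_mapRingHom, coeff_map]

theorem X_mem : (X : ℤ[X]) ∈ Cn := ⟨X, by simp⟩

theorem Xp_mem (n : ℕ) : (X ^ n : ℤ[X]) ∈ Cn := Cn.pow_mem X_mem n

theorem zero_mem' : (0 : ℤ[X]) ∈ Cn := Cn.zero_mem

theorem reflect_mem {p : ℤ[X]} (N : ℕ) (h : p ∈ Cn) : reflect N p ∈ Cn := by
  obtain ⟨q, rfl⟩ := h
  refine ⟨reflect N q, ?_⟩
  ext n
  simp [Polynomial.coe_mapRingHom, coeff_map, coeff_reflect]

/-- `1 + X + ... + X^n` -/
noncomputable def S (n : ℕ) : ℤ[X] := ∑ i ∈ Finset.range (n + 1), X ^ i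

theorem S_mem (n : ℕ) : S n ∈ Cn := Cn.sum_mem fun i _ => Xp_mem i

theorem coeff_S (n k : ℕ) : (S n).coeff k = if k ≤ n then 1 else 0 := by
  simp only [S, finsetSum_coeff, coeff_X_pow]
  rw [Finset.sum_ite_eq]
  simp

theorem S_sub_X {n i : ℕ} (h : i ≤ n) : S n - X ^ i ∈ Cn := by
  have : S n - X ^ i = ∑ j ∈ (Finset.range (n + 1)).erase i, (X : ℤ[X]) ^ j := by
    rw [S, ← Finset.add_sum_erase _ _ (Finset.mem_range.2 (Nat.lt_succ_of_le h))]
    ring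
  rw [this]
  exact Cn.sum_mem fun i _ => Xp_mem i

theorem S_sub_XX {n i j : ℕ} (hi : i ≤ n) (hj : j ≤ n) (hij : i ≠ j) :
    S n - X ^ i - X ^ j ∈ Cn := by
  have : S n - X ^ i - X ^ j
      = ∑ l ∈ ((Finset.range (n + 1)).erase i).erase j, (X : ℤ[X]) ^ l := by
    rw [S, ← Finset.add_sum_erase _ _ (Finset.mem_range.2 (Nat.lt_succ_of_le hi)),
      ← Finset.add_sum_erase _ _ (Finset.mem_erase.2
        ⟨hij.symm, Finset.mem_range.2 (Nat.lt_succ_of_le hj)⟩)]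
    ring
  rw [this]
  exact Cn.sum_mem fun i _ => Xp_mem i

theorem S_succ (n : ℕ) : S (n + 1) = S n + X ^ (n + 1) := by
  simp only [S]
  rw [Finset.sum_range_succ]

theorem S_succ' (n : ℕ) : S (n + 1) = 1 + X * S n := by
  simp only [S]
  rw [Finset.sum_range_succ', Finset.mul_sum, add_comm]
  congr 1
  exact Finset.sum_congr rfl fun i _ => by ring

theorem S_mul (m n : ℕ) : S m * S n - S (m + n) ∈ Cn := by
  induction m with
  | zero =>
    have : S 0 = 1 := by simp [S]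
    rw [this]
    simp [Cn.zero_mem]
  | succ m ih =>
    have h1 : S (m + 1) * S n - S (m + 1 + n)
        = (S m * S n - S (m + n)) + X ^ (m + 1) * (S n - X ^ n) := by
      have : m + 1 + n = m + n + 1 := by ring
      rw [this, S_succ, S_succ]
      ring
    rw [h1]
    exact Cn.add_mem ih (Cn.mul_mem (Xp_mem _) (S_sub_X le_rfl))

/-- The recursion step for positivity. -/
theorem S_step {N M : ℕ} (hN : 1 ≤ N) (hM : 2 ≤ M) : S N * (S M - X) - S (N + M) ∈ Cn := by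
  obtain ⟨M, rfl⟩ := Nat.exists_eq_add_of_le hM
  have e1 : S (2 + M) = 1 + X + X ^ 2 * S M := by
    have : 2 + M = M + 1 + 1 := by ring
    rw [this, S_succ', S_succ']
    ring
  have e2 : S (N + (2 + M)) = 1 + X + X ^ 2 * S (N + M) := by
    have : N + (2 + M) = N + M + 1 + 1 := by ring
    rw [this, S_succ', S_succ']
    ring
  have e3 : S N * (S (2 + M) - X) - S (N + (2 + M))
      = (S N - X ^ 0 - X ^ 1) + X ^ 2 * (S N * S M - S (N + M)) := by
    rw [e1, e2]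
    ring
  rw [e3]
  exact Cn.add_mem (S_sub_XX (Nat.zero_le _) hN (by norm_num)) (Cn.mul_mem (Xp_mem 2) (S_mul _ _))

/-- The positivity part of the invariant, one half. -/
structure Half (N1 N2 : ℕ) (K L M : ℤ[X]) : Prop where
  all : ∀ i ≤ N1, M - X ^ i * L ∈ Cn
  strict : ∃ i ≤ N1, M - X ^ i * L - S (N1 + N2) ∈ Cn

theorem step_i {N1 : ℕ} (h1 : 1 ≤ N1) {K L M : ℤ[X]} (hK : K - S N1 ∈ Cn) (hM : M ∈ Cn)
    (ha : ∀ i ≤ N1, M - X ^ i * L ∈ Cn) :
    ∀ i ≤ N1, K * M - X ^ N1 * L - X ^ i * M ∈ Cn := by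
  intro i hi
  obtain ⟨l, hl, hli⟩ : ∃ l ≤ N1, i ≠ l := by
    by_cases h : i = 0
    · exact ⟨1, h1, by omega⟩
    · exact ⟨0, Nat.zero_le _, h⟩
  have e : K * M - X ^ N1 * L - X ^ i * M
      = (K - S N1) * M + (S N1 - X ^ i - X ^ l) * M + X ^ l * (M - X ^ (N1 - l) * L) := by
    have : (X : ℤ[X]) ^ N1 = X ^ l * X ^ (N1 - l) := by
      rw [← pow_add]; congr 1; omega
    rw [this]
    ring
  rw [e]
  exact Cn.add_mem (Cn.add_mem (Cn.mul_mem hK hM) (Cn.mul_mem (S_sub_XX hi hl hli) hM))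
    (Cn.mul_mem (Xp_mem _) (ha _ (Nat.sub_le _ _)))

theorem step_ii {N1 N2 : ℕ} {K L M : ℤ[X]} {k i0 : ℕ} (hK : K - S N1 - X ^ k ∈ Cn)
    (hM : M - S (N1 + N2) ∈ Cn)
    (hi0 : i0 ≤ N1) (hs : M - X ^ i0 * L - S (N1 + N2) ∈ Cn) :
    K * M - X ^ N1 * L - X ^ k * M - S (N1 + (N1 + N2)) ∈ Cn := by
  have hM' : M ∈ Cn := by
    have : M = (M - S (N1 + N2)) + S (N1 + N2) := by ring
    rw [this]
    exact Cn.add_mem hM (S_mem _)
  have e : K * M - X ^ N1 * L - X ^ k * M - S (N1 + (N1 + N2))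
      = (K - S N1 - X ^ k) * M + (S N1 - X ^ (N1 - i0)) * (M - S (N1 + N2))
        + X ^ (N1 - i0) * (M - X ^ i0 * L - S (N1 + N2))
        + (S N1 * S (N1 + N2) - S (N1 + (N1 + N2))) := by
    have : (X : ℤ[X]) ^ N1 = X ^ (N1 - i0) * X ^ i0 := by
      rw [← pow_add]; congr 1; omega
    rw [this]
    ring
  rw [e]
  exact Cn.add_mem (Cn.add_mem (Cn.add_mem (Cn.mul_mem hK hM')
    (Cn.mul_mem (S_sub_X (Nat.sub_le _ _)) hM)) (Cn.mul_mem (Xp_mem _) hs)) (S_mul _ _)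

theorem step_iii {N1 N2 : ℕ} {K L M : ℤ[X]} {i0 : ℕ} (hK : K - S N1 ∈ Cn) (hL : L ∈ Cn)
    (hi0 : i0 ≤ N1) (hs : M - X ^ i0 * L - S (N1 + N2) ∈ Cn) :
    ∀ j ≤ N1 + N2, K * M - X ^ N1 * L - X ^ j * K ∈ Cn := by
  intro j hj
  have hK' : K ∈ Cn := by
    have : K = (K - S N1) + S N1 := by ring
    rw [this]
    exact Cn.add_mem hK (S_mem _)
  have e : K * M - X ^ N1 * L - X ^ j * K
      = K * ((M - X ^ i0 * L - S (N1 + N2)) + (S (N1 + N2) - X ^ j))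
        + X ^ i0 * ((K - S N1) + (S N1 - X ^ (N1 - i0))) * L := by
    have : (X : ℤ[X]) ^ N1 = X ^ (N1 - i0) * X ^ i0 := by
      rw [← pow_add]; congr 1; omega
    rw [this]
    ring
  rw [e]
  exact Cn.add_mem (Cn.mul_mem hK' (Cn.add_mem hs (S_sub_X hj)))
    (Cn.mul_mem (Cn.mul_mem (Xp_mem _) (Cn.add_mem hK (S_sub_X (Nat.sub_le _ _)))) hL)

theorem step_iv {N1 N2 : ℕ} (h1 : 1 ≤ N1) (h2 : 1 ≤ N2) {K L M : ℤ[X]} {i0 : ℕ}
    (hK : K - S N1 ∈ Cn) (hL : L ∈ Cn)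
    (hi0 : i0 ≤ N1) (hs : M - X ^ i0 * L - S (N1 + N2) ∈ Cn) :
    K * M - X ^ N1 * L - X ^ 1 * K - S (N1 + (N1 + N2)) ∈ Cn := by
  have hK' : K ∈ Cn := by
    have : K = (K - S N1) + S N1 := by ring
    rw [this]
    exact Cn.add_mem hK (S_mem _)
  have hX : S (N1 + N2) - X ∈ Cn := by
    have := S_sub_X (n := N1 + N2) (i := 1) (by omega)
    simpa using this
  have e : K * M - X ^ N1 * L - X ^ 1 * K - S (N1 + (N1 + N2))
      = K * (M - X ^ i0 * L - S (N1 + N2)) + (K - S N1) * (S (N1 + N2) - X)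
        + (S N1 * (S (N1 + N2) - X) - S (N1 + (N1 + N2)))
        + X ^ i0 * ((K - S N1) + (S N1 - X ^ (N1 - i0))) * L := by
    have : (X : ℤ[X]) ^ N1 = X ^ (N1 - i0) * X ^ i0 := by
      rw [← pow_add]; congr 1; omega
    rw [this]
    ring
  rw [e]
  exact Cn.add_mem (Cn.add_mem (Cn.add_mem (Cn.mul_mem hK' hs) (Cn.mul_mem hK hX))
    (S_step h1 (by omega)))
    (Cn.mul_mem (Cn.mul_mem (Xp_mem _) (Cn.add_mem hK (S_sub_X (Nat.sub_le _ _)))) hL)

theorem reflect_S (N : ℕ) : reflect N (S N) = S N := by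
  ext k
  rw [coeff_reflect, coeff_S, coeff_S]
  by_cases h : k ≤ N
  · rw [revAt_le h]; simp [h]
  · rw [revAt_eq_self_of_lt (by omega)]

theorem reflect_Xmul {n i N : ℕ} {p : ℤ[X]} (hp : p.natDegree ≤ n) (h : n + i ≤ N) :
    reflect N (X ^ i * p) = X ^ (N - n - i) * reflect n p := by
  obtain ⟨j, rfl⟩ := Nat.exists_eq_add_of_le h
  have e1 : n + i + j = (i + j) + n := by ring
  have e2 : n + i + j - n - i = j := by omega
  rw [e2]
  conv_lhs => rw [e1]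
  rw [reflect_mul _ _ (F := i + j) (G := n) (by simp) hp, reflect_monomial,
    revAt_le (by omega)]
  congr 2
  omega

theorem reflect_reflect (N : ℕ) (p : ℤ[X]) : reflect N (reflect N p) = p := by
  ext k
  rw [coeff_reflect, coeff_reflect, revAt_invol]

theorem natDegree_reflect_le {N : ℕ} {p : ℤ[X]} (hp : p.natDegree ≤ N) :
    (reflect N p).natDegree ≤ N := by
  rw [natDegree_le_iff_coeff_eq_zero]
  intro k hk
  rw [coeff_reflect, revAt_eq_self_of_lt hk]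
  exact coeff_eq_zero_of_natDegree_lt (by omega)

/-- Positivity invariant for the trace part. -/
structure Pos (Na Nb : ℕ) (K L M : ℤ[X]) : Prop where
  ha : 1 ≤ Na
  hb : 1 ≤ Nb
  dK : K.natDegree ≤ Na
  dL : L.natDegree ≤ Nb
  dM : M.natDegree ≤ Na + Nb
  pK : ∃ k ≤ Na, K - S Na - X ^ k ∈ Cn
  pL : ∃ k ≤ Nb, L - S Nb - X ^ k ∈ Cn
  pM : ∃ k ≤ Na + Nb, M - S (Na + Nb) - X ^ k ∈ Cn
  al : ∀ i ≤ Na, M - X ^ i * L ∈ Cn
  als : ∃ i ≤ Na, M - X ^ i * L - S (Na + Nb) ∈ Cn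
  be : ∀ i ≤ Nb, reflect (Na + Nb) M - X ^ i * K ∈ Cn
  bes : ∃ i ≤ Nb, reflect (Na + Nb) M - X ^ i * K - S (Na + Nb) ∈ Cn

theorem add_Xp {p q : ℤ[X]} {k : ℕ} (h : p - q - X ^ k ∈ Cn) : p - q ∈ Cn := by
  have : p - q = (p - q - X ^ k) + X ^ k := by ring
  rw [this]
  exact Cn.add_mem h (Xp_mem _)

theorem of_S {p : ℤ[X]} {n : ℕ} (h : p - S n ∈ Cn) : p ∈ Cn := by
  have : p = (p - S n) + S n := by ring
  rw [this]
  exact Cn.add_mem h (S_mem _)

theorem reflect_pos {N : ℕ} {p : ℤ[X]} (h : ∃ k ≤ N, p - S N - X ^ k ∈ Cn) :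
    ∃ k ≤ N, reflect N p - S N - X ^ k ∈ Cn := by
  obtain ⟨k, hk, h⟩ := h
  refine ⟨N - k, Nat.sub_le _ _, ?_⟩
  have := reflect_mem N h
  rw [reflect_sub, reflect_sub, reflect_S, reflect_monomial, revAt_le hk] at this
  exact this

theorem Pos.swap {Na Nb : ℕ} {K L M : ℤ[X]} (h : Pos Na Nb K L M) :
    Pos Nb Na L K (reflect (Na + Nb) M) where
  ha := h.hb
  hb := h.ha
  dK := h.dL
  dL := h.dK
  dM := by rw [add_comm Nb Na]; exact natDegree_reflect_le h.dM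
  pK := h.pL
  pL := h.pK
  pM := by rw [add_comm Nb Na]; exact reflect_pos h.pM
  al := h.be
  als := by rw [add_comm Nb Na]; exact h.bes
  be := by rw [add_comm Nb Na, reflect_reflect]; exact h.al
  bes := by rw [add_comm Nb Na, reflect_reflect]; exact h.als

theorem Pos.left {Na Nb : ℕ} {K L M : ℤ[X]} (h : Pos Na Nb K L M) :
    Pos Na (Na + Nb) (reflect Na K) M (K * M - X ^ Na * L) := by
  obtain ⟨k, hk, hK⟩ := h.pK
  obtain ⟨l, hl, hL⟩ := h.pL
  obtain ⟨m, hm, hM⟩ := h.pM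
  obtain ⟨i0, hi0, hs⟩ := h.als
  have hK1 := add_Xp hK
  have hL1 := add_Xp hL
  have hM1 := add_Xp hM
  have hM0 := of_S hM1
  have hL0 := of_S hL1
  have a0 := h.ha
  have b0 := h.hb
  have dnew : (K * M - X ^ Na * L).natDegree ≤ Na + (Na + Nb) := by
    refine (natDegree_sub_le _ _).trans (max_le ?_ ?_)
    · exact natDegree_mul_le.trans (add_le_add h.dK h.dM)
    · refine natDegree_mul_le.trans ?_
      have : ((X : ℤ[X]) ^ Na).natDegree ≤ Na := by simp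
      have := h.dL
      omega
  have hii := step_ii hK hM1 hi0 hs
  refine ⟨h.ha, by omega, natDegree_reflect_le h.dK, h.dM, dnew, reflect_pos h.pK, h.pM,
    ⟨k, by omega, ?_⟩, step_i a0 hK1 hM0 h.al, ⟨k, hk, hii⟩, ?_, ⟨Na + Nb - 1, by omega, ?_⟩⟩
  · have e : K * M - X ^ Na * L - S (Na + (Na + Nb)) - X ^ k
        = (K * M - X ^ Na * L - X ^ k * M - S (Na + (Na + Nb)))
          + X ^ k * ((M - S (Na + Nb)) + (S (Na + Nb) - X ^ 0)) := by
      ring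
    rw [e]
    exact Cn.add_mem hii (Cn.mul_mem (Xp_mem _) (Cn.add_mem hM1 (S_sub_X (Nat.zero_le _))))
  · intro i hi
    have := reflect_mem (Na + (Na + Nb)) (step_iii hK1 hL0 hi0 hs (Na + Nb - i) (Nat.sub_le _ _))
    rw [reflect_sub, reflect_Xmul h.dK (by omega)] at this
    have e : Na + (Na + Nb) - Na - (Na + Nb - i) = i := by omega
    rwa [e] at this
  · have := reflect_mem (Na + (Na + Nb)) (step_iv a0 b0 hK1 hL0 hi0 hs)
    rw [reflect_sub, reflect_sub, reflect_S, reflect_Xmul h.dK (by omega)] at this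
    have e : Na + (Na + Nb) - Na - 1 = Na + Nb - 1 := by omega
    rwa [e] at this

end Pool.Agent.R183.MirrorCone
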